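import Pool.Agent.R925.Q.FoD

/-!
# Fields of definition of sections: descent of sections among the twists of a cyclic cover

Let `k` be a field finitely generated over `ℚ`, `ℓ` a prime number, `f ∈ k[x]` a separable polynomial
whose degree is at least 3 and divisible by `ℓ`, and `d ∈ k` not zero.  Let `C` be the smooth
projective curve `d y^ℓ = f(x)` over `k`, of genus `(ℓ - 1)(deg f - 2)/2`, and let `F = k(x, y)` be its
function field.
The branch points are the points `P_e = (e, 0)`, where `e` is a root of `f`.

Let `M` be the maximal pro-`ℓ` extension of `k̄ F` that is unramified over `C`, so that `Gal(M/F)` is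
the geometrically pro-`ℓ` fundamental group of `C`, the quotient of `π₁(C)` by the kernel of
`π₁(C_k̄) → π₁(C_k̄)^(pro-ℓ)`.  For `k ⊆ k' ⊆ k̄` and a nonzero `δ ∈ k'` let `C_δ` be the curve
`δ y^ℓ = f(x)` over `k'`.  All these twists have the same function field `k̄ F` over `k̄`, hence the
same field `M`, and `Gal(M/k'(x))` contains the fundamental groups `Gal(M/k'(C_δ))` of all of them.

Let `H` be an open subgroup of `G_k` with fixed field `k'`.  A section over `H` is a continuous
splitting of `Gal(M/k'(x)) → Gal(k̄/k') = H`.  Let us say that a Galois extension `K'` of `k`, which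
may be infinite, is allowed if `K' = k`, or if `K'` has a finite residue field at some good place of
`k̄`: a place prime to `ℓ`, discrete with finite residue field on `k`, at which the roots of `f` are
integral and remain distinct.  (Examples for a number field `k`: the finite Galois extensions of `k`;
the field `k(μ_{p^∞})`, where `p ≠ ℓ` is a prime number with a good place above `p`; the field of the
totally `p`-adic numbers over `k = ℚ`.)

**Theorem.**  Let `s` be a section over an open subgroup `H` of `G_k`.

1. If the restriction of `s` to a finite extension of an allowed field `K'` has its image in the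
   decomposition group of a valuation above a branch point, then so has `s`.
2. Assume that `s` is not the section of a branch point in this sense.  Then there are an open
   subgroup `H₀ ⊇ H` and a section `s₀` over `H₀` with the restriction `s`, such that
   * `s₀` is a section of a twist `C_δ` over the fixed field `k₀` of `H₀`, and `δ` is unique up to
     `ℓ`-th powers of elements of `k₀`;
   * for all allowed `K'`, every section `s'` over an open subgroup `H'`, of whatever twist of `C` over
     whatever finite extension of `k`, which agrees with `s` over a finite extension of `K'`, is a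
     restriction of `s₀`; in particular `H' ⊆ H₀`;
   * for all allowed `K'`, the group `H₀` is the set of all `σ ∈ G_k` such that `s` is conjugate to its
     conjugate under `σ`, over a finite extension of `K'`.

So a section which is not the section of a branch point has a smallest field of definition `k₀`, also
among all forms of the curve that are given by twists; it is equal to the field of moduli, and it
is not changed by an extension of the constants to an allowed field.  For `K' = k` part (2) says, for
instance, that a section of a twist `C_δ` over `k'`, whose class is invariant under `Gal(k'/k)` up to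
the automorphisms of `C_k̄` over the `x`-line and finite extensions, comes from a section over `k` of
one and only one twist of `C` over `k`.  The section conjecture requires this, because a point of `C`
over `k̄` which is not a branch point and whose coordinate `x` is in `k` lies on exactly one twist of
`C` over `k`.

Proof.  (a) Let `K'` be allowed, and let `U` be a subgroup of finite index.  The group `Gal(k̄/K') ∩ U`
contains an element `φ` which acts on the residue field of a good place as a power of a Frobenius
element: if `K'` is infinite, then this is the assumption on the residue field of `K'`.  By the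
theorem on sections with symmetries (`SectionsWithSymmetries`, whose proof uses only `φ`), an element
`γ ≠ 1` of `Gal(M/k̄(x))` which commutes with `s(Gal(k̄/K') ∩ U)` has order `ℓ` and fixes exactly one
valuation ring of `M` over `k̄`, which lies above a branch point, and all such elements are powers
of one of them.  So the group `s(H)`, which normalises the group generated by `γ`, because `K'/k` is
normal, stabilises this valuation ring.  Conversely, if `s(Gal(k̄/K') ∩ U)` stabilises a valuation
ring above a branch point, then it commutes with the generators of its inertia group over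
`k̄(x)`, after making `U` smaller.  This gives (1).  (b) If `s` is not the section of a branch point,
then for every `σ ∈ G_k` there is at most one `γ` over `σ` with `γ s(τ) γ⁻¹ = s(σ τ σ⁻¹)` for all `τ`
in `Gal(k̄/K') ∩ U`, for some `U`.  These `γ` form a group, which is mapped isomorphically onto a
subgroup `H₀ ⊇ H` of `G_k`; the inverse map is `s₀`.  If `γ` has the property for `K'`, then it has it
for `k`: for `τ ∈ U` the element `s(σ τ σ⁻¹)⁻¹ γ s(τ) γ⁻¹` commutes with `s(Gal(k̄/K') ∩ U')`,
hence it is trivial.  So `H₀` and `s₀` do not depend on `K'`.  (c) If `s'` agrees with `s` over a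
finite extension of `K'`, then `γ = s'(σ)` has the property in (b).  (d) The action of `s₀` on `y`
gives a cocycle with values in `μ_ℓ`, and Hilbert's Theorem 90 gives `δ`.
-/

open Polynomial

namespace Pool.Agent.Results.MP_e66f84_ag.FieldOfDefinition

section definitions

variable (ℓ : ℕ) (k F Ω : Type) [Field k] [Field F] [Field Ω] [Algebra k F] [Algebra F Ω]
  [Algebra k Ω]

/-- `k̄ F`, the compositum of `F` and of the algebraic closure of `k` in `Ω`. -/
noncomputable def geomField : IntermediateField F Ω :=
  IntermediateField.adjoin F (algebraicClosure k Ω : Set Ω)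

/-- The algebraic extension `L` of `K` in `Ω` is unramified at all valuation rings of `Ω` that
contain `k`: every nonzero element of `L` has the same valuation as an element of `K`.  (If `K` is
a function field of one variable over the algebraic closure of `k` and `k` has characteristic zero,
then this says that `L/K` is unramified over all points of the smooth projective curve.) -/
def Unramified {k K Ω : Type} [Field k] [Field K] [Field Ω] [Algebra k Ω] [Algebra K Ω]
    (L : IntermediateField K Ω) : Prop :=
  ∀ W : ValuationSubring Ω, (∀ c : k, algebraMap k Ω c ∈ W) → ∀ z ∈ L, z ≠ 0 →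
    ∃ t : K, t ≠ 0 ∧ z / algebraMap K Ω t ∈ W ∧ (z / algebraMap K Ω t)⁻¹ ∈ W

/-- `L/K` is a finite Galois extension whose degree is a power of `ℓ`. -/
def FiniteProEll (ℓ : ℕ) {K Ω : Type} [Field K] [Field Ω] [Algebra K Ω]
    (L : IntermediateField K Ω) : Prop :=
  FiniteDimensional K L ∧ IsGalois K L ∧ ∃ m : ℕ, Module.finrank K L = ℓ ^ m

/-- The maximal unramified pro-`ℓ` extension of `K` in `Ω`: the compositum of the finite Galois
extensions of `K` whose degree is a power of `ℓ` and which are unramified. -/
noncomputable def maxProEll (ℓ : ℕ) (k K Ω : Type) [Field k] [Field K] [Field Ω] [Algebra k Ω]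
    [Algebra K Ω] : IntermediateField K Ω :=
  ⨆ L : {L : IntermediateField K Ω // FiniteProEll ℓ L ∧ Unramified (k := k) L}, L.1

/-- `M`, the maximal unramified pro-`ℓ` extension of `k̄ F` in `Ω`, as an extension of `F`. -/
noncomputable def proEllField : IntermediateField F Ω :=
  (maxProEll ℓ k (geomField k F Ω) Ω).restrictScalars F

end definitions

section sections

variable {k F κ M Ω : Type} [Field k] [Field F] [Field κ] [Field M] [Field Ω] [Algebra k F]
  [Algebra k κ] [Algebra F M] [Algebra κ Ω] [Algebra M Ω]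

/-- The automorphism `γ` of the field `M` lies over the automorphism `σ` of the field `κ`: they agree
on the elements that `M` and `κ` have in common as subfields of `Ω`. -/
def LiesOver (Ω : Type) [Field Ω] [Algebra κ Ω] [Algebra M Ω] (σ : κ ≃ₐ[k] κ) (γ : M ≃+* M) :
    Prop :=
  ∀ (c : κ) (z : M), algebraMap M Ω z = algebraMap κ Ω c →
    algebraMap M Ω (γ z) = algebraMap κ Ω (σ c)

/-- A section over the subgroup `H` of `G_k = Gal(κ/k)`, where `κ` is an algebraic closure of `k`: a
continuous homomorphism from `H` to the group of automorphisms of `M` which fix `x ∈ F ⊆ M`, such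
that the image of `σ` lies over `σ`.  (If `H = G_{k'}` is open, this is a splitting of
`Gal(M/k'(x)) → G_{k'}`.) -/
structure SectionOver (k κ M Ω : Type) {F : Type} [Field k] [Field F] [Field κ] [Field M]
    [Field Ω] [Algebra k κ] [Algebra F M] [Algebra κ Ω] [Algebra M Ω] (x : F)
    (H : Subgroup (κ ≃ₐ[k] κ)) where
  /-- the homomorphism -/
  toHom : H →* RingAut M
  lies : ∀ σ : H, LiesOver Ω (σ : κ ≃ₐ[k] κ) (toHom σ)
  base : ∀ σ, toHom σ (algebraMap F M x) = algebraMap F M x
  cont : ∀ z : M, ∃ U : Subgroup (κ ≃ₐ[k] κ), IsOpen (U : Set (κ ≃ₐ[k] κ)) ∧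
    ∀ σ : H, (σ : κ ≃ₐ[k] κ) ∈ U → toHom σ z = z

/-- The valuation ring `W` of `M` lies above a branch point: it contains `k`, and `f(x)` is in its
maximal ideal. -/
def AboveBranchPoint (f : k[X]) (x : F) (W : ValuationSubring M) : Prop :=
  (∀ c : k, algebraMap F M (algebraMap k F c) ∈ W) ∧ algebraMap F M (aeval x f) ∈ W.nonunits

variable {x : F} {H H' : Subgroup (κ ≃ₐ[k] κ)}

/-- The image under `s` of the elements of `S` is contained in the decomposition group of `W`. -/
def Stabilises (s : SectionOver k κ M Ω x H) (S : Subgroup (κ ≃ₐ[k] κ)) (W : ValuationSubring M) :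
    Prop :=
  ∀ σ : H, (σ : κ ≃ₐ[k] κ) ∈ S → ∀ z, s.toHom σ z ∈ W ↔ z ∈ W

/-- `s` is the section of a branch point: its image is contained in the decomposition group of a
valuation ring of `M` above a branch point. -/
def IsBranchSection (f : k[X]) (s : SectionOver k κ M Ω x H) : Prop :=
  ∃ W : ValuationSubring M, AboveBranchPoint f x W ∧ Stabilises s ⊤ W

/-- `s` is a section of the curve `C_δ : δ y^ℓ = f(x)` over the fixed field `k'` of `H`, with `δ ∈ k'`
not zero: the image of `s` fixes the solution `y ∈ M` of this equation, and therefore `k'(x, y)`. -/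
def IsSectionOfTwist (ℓ : ℕ) (f : k[X]) (s : SectionOver k κ M Ω x H) (δ : κ) (y : M) : Prop :=
  δ ≠ 0 ∧ (∀ σ ∈ H, σ δ = δ) ∧
    algebraMap κ Ω δ * algebraMap M Ω y ^ ℓ = algebraMap M Ω (algebraMap F M (aeval x f)) ∧
    ∀ σ, s.toHom σ y = y

/-- `s` is a section of a twist `C_δ` over the fixed field `k'` of `H`, and `δ` is unique up to `ℓ`-th
powers of nonzero elements of `k'`. -/
def BelongsToOneTwist (ℓ : ℕ) (f : k[X]) (s : SectionOver k κ M Ω x H) : Prop :=
  (∃ δ y, IsSectionOfTwist ℓ f s δ y) ∧
    ∀ δ y δ' y', IsSectionOfTwist ℓ f s δ y → IsSectionOfTwist ℓ f s δ' y' →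
      ∃ c : κ, c ≠ 0 ∧ (∀ σ ∈ H, σ c = c) ∧ δ = c ^ ℓ * δ'

/-- `s' `, a section over `H'`, is a restriction of `s`, a section over `H`; in particular `H' ⊆ H`. -/
def IsRestriction (s' : SectionOver k κ M Ω x H') (s : SectionOver k κ M Ω x H) : Prop :=
  ∀ σ (h' : σ ∈ H'), ∃ h : σ ∈ H, s.toHom ⟨σ, h⟩ = s'.toHom ⟨σ, h'⟩

/-- The sections `s` and `s'` agree over a finite extension of `K'`: they agree on
`Gal(κ/K') ∩ U` for some subgroup `U` of finite index of `G_k`, on which both are defined. -/
def AgreeOver (K' : IntermediateField k κ) (s : SectionOver k κ M Ω x H)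
    (s' : SectionOver k κ M Ω x H') : Prop :=
  ∃ U : Subgroup (κ ≃ₐ[k] κ), U.FiniteIndex ∧
    ∀ τ ∈ U, τ ∈ K'.fixingSubgroup → ∃ (h : τ ∈ H) (h' : τ ∈ H'),
      s.toHom ⟨τ, h⟩ = s'.toHom ⟨τ, h'⟩

/-- The section `s` is conjugate to its conjugate under `σ ∈ G_k` over a finite extension of `K'`: for
some automorphism `γ` of `M` over `σ` which fixes `x`, and some subgroup `U` of finite index of `G_k`,
`γ s(τ) γ⁻¹ = s(σ τ σ⁻¹)` for all `τ ∈ Gal(κ/K') ∩ U`. -/
def ConjugateOver (K' : IntermediateField k κ) (s : SectionOver k κ M Ω x H) (σ : κ ≃ₐ[k] κ) :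
    Prop :=
  ∃ γ : M ≃+* M, LiesOver Ω σ γ ∧ γ (algebraMap F M x) = algebraMap F M x ∧
    ∃ U : Subgroup (κ ≃ₐ[k] κ), U.FiniteIndex ∧
      ∀ τ ∈ U, τ ∈ K'.fixingSubgroup → ∃ (h : τ ∈ H) (h' : σ * τ * σ⁻¹ ∈ H),
        ∀ z, γ (s.toHom ⟨τ, h⟩ z) = s.toHom ⟨σ * τ * σ⁻¹, h'⟩ (γ z)

end sections

section places

/-- `V` is a valuation ring of the algebraic closure `κ` of `k` such that `V ∩ k` is a discrete
valuation ring with finite residue field, `ℓ` is invertible in `V`, and the roots of `f` are in `V` and
are distinct modulo the maximal ideal. -/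
structure IsGoodPlace (ℓ : ℕ) {k κ : Type} [Field k] [Field κ] [Algebra k κ] (f : k[X])
    (V : ValuationSubring κ) : Prop where
  discrete : IsDiscreteValuationRing (V.comap (algebraMap k κ))
  finite : Finite (IsLocalRing.ResidueField (V.comap (algebraMap k κ)))
  unit : ((ℓ : κ))⁻¹ ∈ V
  roots : ∀ e : κ, aeval e f = 0 → e ∈ V
  distinct : ∀ e e' : κ, aeval e f = 0 → aeval e' f = 0 → e ≠ e' → (e - e')⁻¹ ∈ V

/-- `K'` is a Galois extension of `k`, finite or infinite, and `K' = k`, or the residue field of `K'` at
some good place is finite. -/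
def IsAllowed (ℓ : ℕ) {k κ : Type} [Field k] [Field κ] [Algebra k κ] (f : k[X])
    (K' : IntermediateField k κ) : Prop :=
  Normal k K' ∧ (K' = ⊥ ∨ ∃ V : ValuationSubring κ, IsGoodPlace ℓ f V ∧
    Finite (IsLocalRing.ResidueField (V.comap (algebraMap K' κ))))

variable {k F κ M Ω : Type} [Field k] [Field F] [Field κ] [Field M] [Field Ω] [Algebra k F]
  [Algebra k κ] [Algebra F M] [Algebra κ Ω] [Algebra M Ω] {x : F} {H H₀ : Subgroup (κ ≃ₐ[k] κ)}

/-- (1) If the restriction of `s` to `Gal(κ/K') ∩ U`, where `K'` is allowed and `U` has finite index,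
has its image in the decomposition group of a valuation ring above a branch point, then so has
`s`. -/
def BranchSectionsDescend (ℓ : ℕ) (f : k[X]) (s : SectionOver k κ M Ω x H) : Prop :=
  ∀ K' : IntermediateField k κ, IsAllowed ℓ f K' →
    ∀ U : Subgroup (κ ≃ₐ[k] κ), U.FiniteIndex →
      ∀ W : ValuationSubring M, AboveBranchPoint f x W →
        Stabilises s (U ⊓ K'.fixingSubgroup) W → Stabilises s ⊤ W

/-- For all allowed `K'`: every section over an open subgroup `H'`, which agrees with `s` over a finite
extension of `K'`, is a restriction of `s₀`; and `H₀` is the group of all `σ` such that `s` is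
conjugate to its conjugate under `σ` over a finite extension of `K'`. -/
def IsLargest (ℓ : ℕ) (f : k[X]) (s : SectionOver k κ M Ω x H) (s₀ : SectionOver k κ M Ω x H₀) :
    Prop :=
  ∀ K' : IntermediateField k κ, IsAllowed ℓ f K' →
    (∀ H' : Subgroup (κ ≃ₐ[k] κ), IsOpen (H' : Set (κ ≃ₐ[k] κ)) →
      ∀ s' : SectionOver k κ M Ω x H', AgreeOver K' s s' → IsRestriction s' s₀) ∧
    ∀ σ, σ ∈ H₀ ↔ ConjugateOver K' s σ

end places

section curves

/-- `F = k(x, y)` is the function field of the curve `d y^ℓ = f(x)`. -/
def IsFunctionField {k F : Type} [Field k] [Field F] [Algebra k F] (ℓ : ℕ) (f : k[X]) (d : k)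
    (x y : F) : Prop :=
  Transcendental k x ∧ algebraMap k F d * y ^ ℓ = aeval x f ∧
    IntermediateField.adjoin k {x, y} = (⊤ : IntermediateField k F)

/-- The sections over the open subgroups of `G_k`, where `κ` is an algebraic closure of `k`, have
fields of definition: let `H` be an open subgroup of `G_k`, and let `s` be a section over `H`.

(1) If the restriction of `s` to `Gal(κ/K') ∩ U`, where `K'` is allowed and `U` has finite index, has
its image in the decomposition group of a valuation ring above a branch point, then so has `s`.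

(2) If `s` is not the section of a branch point, then there is a section `s₀` over an open subgroup
`H₀ ⊇ H` with the restriction `s` and with the following properties.  It is a section of a twist `C_δ`,
and `δ` is unique up to `ℓ`-th powers of nonzero elements of the fixed field of `H₀`.  For all allowed
`K'`: every section over an open subgroup `H'`, which agrees with `s` over a finite extension of `K'`,
is a restriction of `s₀`; and `H₀` is the group of all `σ` such that `s` is conjugate to its conjugate
under `σ` over a finite extension of `K'`. -/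
def HaveFieldsOfDefinition (k κ M Ω : Type) {F : Type} [Field k] [Field F] [Field κ] [Field M]
    [Field Ω] [Algebra k F] [Algebra k κ] [Algebra F M] [Algebra κ Ω] [Algebra M Ω] (ℓ : ℕ)
    (f : k[X]) (x : F) : Prop :=
  ∀ H : Subgroup (κ ≃ₐ[k] κ), IsOpen (H : Set (κ ≃ₐ[k] κ)) → ∀ s : SectionOver k κ M Ω x H,
    BranchSectionsDescend ℓ f s ∧
    (¬ IsBranchSection f s →
      ∃ (H₀ : Subgroup (κ ≃ₐ[k] κ)) (s₀ : SectionOver k κ M Ω x H₀),
        IsOpen (H₀ : Set (κ ≃ₐ[k] κ)) ∧ IsRestriction s s₀ ∧ BelongsToOneTwist ℓ f s₀ ∧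
          IsLargest ℓ f s s₀)

/-- Let `F = k(x, y)` be the function field of the curve `C : d y^ℓ = f(x)`, let `Ω` be an algebraic
closure of `F` and `M = proEllField ℓ k F Ω`; this field is the same for all twists of `C` over all
extensions of `k` in `k̄`.  Then the sections over the open subgroups of `G_k` have fields of
definition, in the sense of the preceding definition. -/
def FieldsOfDefinition (k : Type) [Field k] (ℓ : ℕ) (f : k[X]) (d : k) : Prop :=
  ∀ (F Ω : Type) [Field F] [Field Ω] [Algebra k F] [Algebra F Ω] [Algebra k Ω]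
    [IsScalarTower k F Ω] [IsAlgClosure F Ω] (x y : F), IsFunctionField ℓ f d x y →
    HaveFieldsOfDefinition k (algebraicClosure k Ω) (proEllField ℓ k F Ω) Ω ℓ f x

end curves

lemma iSup_congr_prop {α : Type} [CompleteLattice α] {P Q : α → Prop} (h : ∀ L, P L ↔ Q L) :
    (⨆ L : {L // P L}, L.1) = ⨆ L : {L // Q L}, L.1 := by
  have h1 : P = Q := funext fun L => propext (h L)
  subst h1
  rfl

lemma proEll_eq (ℓ : ℕ) (k F Ω : Type) [Field k] [Field F] [Field Ω] [Algebra k F] [Algebra F Ω]
    [Algebra k Ω] : proEllField ℓ k F Ω = Pool.Agent.Y157.PS.geomPro ℓ k F Ω := by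
  unfold proEllField Pool.Agent.Y157.PS.geomPro maxProEll Pool.Agent.Y157.PS.maxPro
  congr 1
  refine iSup_congr_prop fun L => ?_
  constructor
  · rintro ⟨⟨h1, h2, h3⟩, h4⟩
    refine ⟨⟨h1, h2, h3⟩, fun W hW z hz hz0 => ?_⟩
    obtain ⟨t, ht, h5, h6⟩ := h4 W hW z hz hz0
    exact ⟨t, ht, div_ne_zero hz0 ((_root_.map_ne_zero _).2 ht), h5, h6⟩
  · rintro ⟨⟨h1, h2, h3⟩, h4⟩
    refine ⟨⟨h1, h2, h3⟩, fun W hW z hz hz0 => ?_⟩
    obtain ⟨t, ht, -, h5, h6⟩ := h4 W hW z hz hz0
    exact ⟨t, ht, h5, h6⟩

lemma allowed {ℓ : ℕ} {k κ : Type} [Field k] [Field κ] [Algebra k κ] {f : k[X]}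
    {K' : IntermediateField k κ} (h : IsAllowed ℓ f K') : Pool.Agent.R925.Q.Lg ℓ f K' :=
  ⟨h.1, h.2.imp id fun ⟨V, hV, hf⟩ => ⟨V, ⟨hV.1, hV.2, hV.3, hV.4, hV.5⟩, hf⟩⟩

theorem core (k : Type) [Field k] [CharZero k] (ℓ : ℕ) [Fact ℓ.Prime] (f : k[X])
    (hf : f.Separable) (hℓ : ℓ ∣ f.natDegree) (h3 : 3 ≤ f.natDegree) (d : k) (hd : d ≠ 0)
    (hRR : ∀ (κ : Type) [Field κ] [Algebra k κ] [IsAlgClosure k κ],
      Pool.Agent.R925.Q.RR ℓ k κ f) :
    FieldsOfDefinition k ℓ f d := by
  intro F Ω _ _ _ _ _ _ _ x y hxyF
  obtain ⟨hx, hxy, hF⟩ := hxyF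
  have hcl : IsAlgClosed Ω := IsAlgClosure.isAlgClosed F
  have halg : Algebra.IsAlgebraic F Ω := IsAlgClosure.isAlgebraic
  have hac : IsAlgClosure k (algebraicClosure k Ω) := inferInstance
  have hnor : Normal k (algebraicClosure k Ω) := IsAlgClosure.normal k _
  have hgal : IsGalois k (algebraicClosure k Ω) := ⟨⟩
  rw [proEll_eq]
  intro H hHo s
  have hHi : H.index ≠ 0 := by
    have := Subgroup.quotient_finite_of_isOpen H hHo
    exact (Subgroup.finiteIndex_of_finite_quotient (H := H)).index_ne_zero
  have hps : ∀ {H' : Subgroup (algebraicClosure k Ω ≃ₐ[k] algebraicClosure k Ω)}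
      (s' : SectionOver k (algebraicClosure k Ω) (Pool.Agent.Y157.PS.geomPro ℓ k F Ω) Ω x H'),
      Pool.Agent.R925.Q.PSec (Pool.Agent.R925.Q.cst ℓ k F Ω)
        (algebraMap F (Pool.Agent.Y157.PS.geomPro ℓ k F Ω) x) H' s'.toHom :=
    fun s' => ⟨fun σ c => Subtype.ext (s'.lies σ c _ rfl), s'.base⟩
  refine ⟨fun K' hK' U hU W hW hst => ?_, fun hnb => ?_⟩
  · have h1 := (Pool.Agent.R925.Q.geoP f hf hℓ h3 d hd x y hx hxy hF K'.fixingSubgroup
      (Pool.Agent.R925.Q.fix_normal K' hK'.1 hnor) (Pool.Agent.R925.Q.rrs_lg (hRR _) (allowed hK'))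
      H hHi s.toHom (hps s)).2 U hU.index_ne_zero W hW.1 hW.2
      (fun σ hσ hσ' z => hst σ ⟨hσ, hσ'⟩ z)
    exact fun σ _ z => h1 σ z
  · obtain ⟨H₀, s₀, g1, g2, g3, g4, ⟨δ, y₀, g5, g6, g7, g8⟩, g9⟩ :=
      Pool.Agent.R925.Q.descG f hf hℓ h3 d hd x y hx hxy hF (Pool.Agent.R925.Q.rrs_top (hRR _)) H
        hHo s.toHom (hps s) s.cont (by
          rintro ⟨W, h1, h2, h3⟩
          exact hnb ⟨W, ⟨h1, h2⟩, fun σ _ z => h3 σ z⟩)
    let S₀ : SectionOver k (algebraicClosure k Ω) (Pool.Agent.Y157.PS.geomPro ℓ k F Ω) Ω x H₀ :=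
      { toHom := s₀
        lies := by
          intro σ c z hz
          have h1 : z = Pool.Agent.R925.Q.cst ℓ k F Ω c := Subtype.ext hz
          rw [h1, g2.const]
          rfl
        base := g2.fixx
        cont := g3 }
    refine ⟨H₀, S₀, g1, fun σ h => g4 σ h,
      ⟨⟨δ, y₀, g5, g6, congrArg Subtype.val g7, g8⟩, ?_⟩, ?_⟩
    · rintro δ y₀ δ' y₀' ⟨a1, a2, a3, a4⟩ ⟨b1, b2, b3, b4⟩
      replace a3 : (δ : Ω) * (y₀ : Ω) ^ ℓ = algebraMap F Ω (aeval x f) := a3
      replace b3 : (δ' : Ω) * (y₀' : Ω) ^ ℓ = algebraMap F Ω (aeval x f) := b3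
      have hfx : algebraMap F Ω (aeval x f) ≠ 0 := by
        refine (_root_.map_ne_zero _).2 fun h => hx ⟨f, ?_, h⟩
        rintro rfl
        simp at h3
      have hℓ0 := (Fact.out : ℓ.Prime).ne_zero
      have hy0 : (y₀ : Ω) ≠ 0 := by
        intro h
        rw [h, zero_pow hℓ0, mul_zero] at a3
        exact hfx a3.symm
      have hy0' : (y₀' : Ω) ≠ 0 := by
        intro h
        rw [h, zero_pow hℓ0, mul_zero] at b3
        exact hfx b3.symm
      have hδ' : (δ' : Ω) ≠ 0 := fun h => b1 (Subtype.ext h)
      have h5 : ((y₀' : Ω) / y₀) ^ ℓ = δ / δ' := by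
        rw [div_pow, div_eq_div_iff (pow_ne_zero _ hy0) hδ', mul_comm, b3, a3]
      have h6 : (y₀' : Ω) / y₀ ∈ algebraicClosure k Ω := by
        rw [mem_algebraicClosure_iff]
        have h7 : IsAlgebraic k (((y₀' : Ω) / y₀) ^ ℓ) := by
          rw [h5]
          exact mem_algebraicClosure_iff.1 (div_mem δ.2 δ'.2)
        exact h7.of_pow (Nat.pos_of_ne_zero hℓ0)
      refine ⟨⟨_, h6⟩, ?_, ?_, ?_⟩
      · intro h
        exact div_ne_zero hy0' hy0 (congrArg Subtype.val h)
      · intro σ hσ
        have h8 := S₀.lies ⟨σ, hσ⟩ ⟨_, h6⟩ (y₀' / y₀) rfl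
        rw [map_div₀, a4, b4] at h8
        exact Subtype.ext h8.symm
      · apply Subtype.ext
        show (δ : Ω) = ((y₀' : Ω) / y₀) ^ ℓ * δ'
        rw [h5, div_mul_cancel₀ _ hδ']
    · intro K' hK'
      obtain ⟨m1, m2⟩ := g9 K'.fixingSubgroup (Pool.Agent.R925.Q.fix_normal K' hK'.1 hnor)
        (Pool.Agent.R925.Q.rrs_lg (hRR _) (allowed hK'))
      refine ⟨fun H' _ s' ⟨U, hU, hag⟩ => m1 H' s'.toHom (hps s') ⟨U, hU.index_ne_zero, hag⟩,
        fun σ => ⟨fun h => ?_, ?_⟩⟩
      · obtain ⟨γ, h1, h2, U, hU, h4⟩ := (m2 σ).1 h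
        refine ⟨γ, fun c z hz => ?_, h2, U, ⟨hU⟩, h4⟩
        have h5 : z = Pool.Agent.R925.Q.cst ℓ k F Ω c := Subtype.ext hz
        rw [h5, h1]
        rfl
      · rintro ⟨γ, h1, h2, U, hU, h4⟩
        exact (m2 σ).2 ⟨γ, fun c => Subtype.ext (h1 c _ rfl), h2, U, hU.index_ne_zero, h4⟩

/-- Let `k` be a field finitely generated over `ℚ`, `ℓ` a prime number, `f ∈ k[x]` a separable
polynomial whose degree is at least 3 and divisible by `ℓ`, `d ∈ k` not zero, and `C` the curve
`d y^ℓ = f(x)`.
Every section over an open subgroup `H` of `G_k` which belongs to a branch point over a finite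
extension of an allowed field belongs to it; every other section `s` is the restriction of a section
`s₀` over a largest open subgroup `H₀`, which belongs to one twist of `C` only, and of which all
sections which agree with `s` over a finite extension of an allowed field `K'` are restrictions; and
`H₀` is the group of all `σ ∈ G_k` such that `s` is conjugate to its conjugate under `σ` over a
finite extension of `K'`. -/
theorem result (k : Type) [Field k] [CharZero k] (hk : (⊤ : IntermediateField ℚ k).FG) (ℓ : ℕ)
    [Fact ℓ.Prime] (f : k[X]) (hf : f.Separable) (hℓ : ℓ ∣ f.natDegree) (h3 : 3 ≤ f.natDegree)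
    (d : k) (hd : d ≠ 0) :
    FieldsOfDefinition k ℓ f d :=
  core k ℓ f hf hℓ h3 d hd fun _ _ _ _ => Pool.Agent.R925.Q.rr_fg hk f hf.ne_zero

end Pool.Agent.Results.MP_e66f84_ag.FieldOfDefinition
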