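import Pool.Agent.R925.L.Gen3

/-!
# The pro-`ℓ` section conjecture for generic twists by rotations

Let `k` be any field finitely generated over `ℚ`, `K = k(t)` the field of rational functions, `ℓ` a
prime number, `m = ℓ^j` with `j ≥ 1`, and let `g ∈ k[x]` be a polynomial such that `g(x^m)` is separable
and its degree is at least 3.  Let `C` be the smooth projective curve `d y^ℓ = g(a x^m)` over `K`, where
`a = a₀ t^α` and `d = d₀ t^β`, `a₀, d₀ ∈ kˣ`, and `α` is not divisible by `m`; for instance
`y^ℓ = g(t x^m)`.  Its genus is `(ℓ - 1)(m deg g - 2)/2`.  It is a twist of the constant curve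
`y^ℓ = g(x^m)` by automorphisms `(x, y) ↦ (ζ x, ξ y)`.  If the genus is at least 1, then `x(P) = 0` or
`x(P) = ∞` for all rational points `P` of `C`: over `k̄(t^(1/m))` the curve is constant, and so are its
points.  The points with `x = 0` are given by `y^ℓ = g(0)/d`, and those with `x = ∞` by
`z^ℓ = lc(g) a^(deg g)/d`, where `z = y x^(-m deg g/ℓ)`.

Let `F = K(x, y)` be the function field of `C`, and let `M` be the maximal pro-`ℓ` extension of
`K̄ F` that is unramified over `C`, so that `Gal(M/F)` is the geometrically pro-`ℓ` fundamental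
group of `C`, the quotient of `π₁(C)` by the kernel of `π₁(C_K̄) → π₁(C_K̄)^(pro-ℓ)`.

**Theorem.**  For every section `s` of `Gal(M/F) → G_K` there is exactly one prolongation `W` to `M`
of the valuation of a point with `x = 0`, `x = ∞` or `y = 0` such that the image of `s` is contained in
the decomposition group of `W`, and this point is a rational point of `C` with `x = 0` or `x = ∞`.

So the sections of the geometrically pro-`ℓ` fundamental group are exactly the sections of the
rational points of `C`, and different rational points have sections which are not conjugate: the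
pro-`ℓ` section conjecture holds for `C`.  In particular for every section of `π₁(C) → G_K`, and of
`π₁(U) → G_K` for an open subcurve `U`, the induced section of `Gal(M/F) → G_K` is the section of
exactly one of the rational points of `C`, and if `C` has no rational point then there are no sections.

The field `k` and the polynomial `g` are arbitrary.  For instance the theorem applies to the curve
`y^ℓ = (x^m - t_1) ⋯ (x^m - t_r)` over `k₀(t_1, …, t_r)`, with independent variables `t_i`: put
`t = 1/t_1`, `u_i = t_i/t_1` and `k = k₀(u_2, …, u_r)`, then this is the curve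
`t^r y^ℓ = ∏ (t x^m - u_i)`, and its sections are those of the points at infinity, for `ℓ = 2` of the
two points at infinity.  In the same way the theorem applies to the generic curve with the
automorphisms `(x, y) ↦ (ζ x, y)`, `y^ℓ = x^(m r) + c_1 x^(m (r - 1)) + ⋯ + c_r` over
`k₀(c_1, …, c_r)`: with `t = 1/c_1` it is `t^r y^ℓ = g(t x^m)`, where the coefficients `c_i t^i` of `g` are
in `k = k₀(c_2/c_1², …, c_r/c_1^r)`.

The theorem `GenericTwists` is the analogous result for the twists `c t^n y^ℓ = f(x)` by the
automorphisms `(x, y) ↦ (x, ξ y)`, `n` prime to `ℓ`, where the rational points are branch points of the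
covering `x`.  Here there is no condition on `d`; for `d = 1` the curves are not twists by the
automorphisms `(x, y) ↦ (x, ξ y)`.

Here the theorem is stated for an arbitrary extension `N ⊇ M` of `F` in an algebraic closure `Ω`
instead of `M`: this includes `N = M` and the fields `N = F_U` with `Gal(F_U/F) = π₁(U)`.

The fundamental group is described through valuations.  Let `U` be an open subcurve of `C`, let `Ω`
be an algebraic closure of `F`, and let `F_U` be the maximal extension of `F` inside `Ω` which is
unramified over the closed points of `U`, that is, over their local rings, which are valuation rings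
of `F`.  Then `π₁(U) = Gal(F_U/F)`, and the map `π₁(U) → G_K` is the restriction of automorphisms to
the algebraic closure of `K` in `Ω`.

Proof.  Let `κ = K̄`, let `κ₀ ⊆ κ` be the algebraic closure of `k`, `ρ^m = a` and `δ^ℓ = d/lc(g)`, and
`X = ρ x`, `Y = δ y`, so that `Y^ℓ = ∏ (X - e)`, where `e ∈ κ₀` runs through the roots of `g(x^m)`, and
`s(σ) X = (σρ/ρ) X`, `s(σ) Y = (σδ/δ) Y`.  As `α` is not divisible by `m`, there is an element
`θ = t^(1/m')`, up to a constant, with `m' ∣ m`, `κ₀(ρ, δ) = κ₀(ρ) = κ₀(θ)`.  (1) `M` is the compositum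
of `κ(X)` and of the maximal unramified pro-`ℓ` extension `M₀` of `κ₀(X, Y)`, and
`Gal(M/κ(X)) = Gal(M₀/κ₀(X))`.  (2) Let `H` be the Galois group of `κ/κ₀(θ)`.  Then `s(H)` acts
trivially on `M₀`: this is the part of the proof of `GenericTwists` for constant curves over `k₁(θ)`,
`k₁` finite over `k`; it uses places of `κ` over `p`-adic fields, Kummer theory for `κ₀(θ)`, and
weights.  (3) Let `τ ∈ G_K` fix `κ₀`, with `τ(θ) = ζ θ` for a primitive `m'`-th root of unity `ζ`.  There
is exactly one automorphism `γ` of `M` over `κ` which acts on `M₀` like `s(τ)`, it satisfies `γ^m = 1` and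
`γ(X) ≠ X`, and a power `η` of `γ` has order `ℓ`, and it moves `X`.  (4) An automorphism `η` of order `ℓ`
of `M` over `κ` with `η(κ(X)) = κ(X)` fixes exactly one place `W` of `M`; it is above `X = 0` or `∞`
because `η(X) ≠ X`.  By (2) `s(G_K)` normalises the group generated by `γ`, so it fixes `W`.
(5) Uniqueness: a place `W'` above `X = 0` or `∞` which is fixed by the image of `s` is fixed by exactly
one `c` of order dividing `m` with `c(X) = γ(X)`; it commutes with `s(τ)`, hence with `γ`, and
`γ c^(-1)`, which has finite order and fixes `X`, is trivial, as otherwise `c` would fix a place above a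
branch point.  So `W'` is fixed by `γ = c`.  A place above a branch point is not fixed by `s(τ)`.
-/

open Polynomial

namespace Pool.Agent.Results.MP_e66f84_ag.GenericTwistsByRotations

section definitions

variable (ℓ : ℕ) (k F Ω : Type) [Field k] [Field F] [Field Ω] [Algebra k F] [Algebra F Ω]
  [Algebra k Ω]

/-- The inertia group of the valuation ring `W` of `Ω`, as a subgroup of `Gal(Ω/F)`: the
automorphisms of `Ω` over `F` that map `W` onto itself and act as the identity on its residue
field. -/
noncomputable def inertia (W : ValuationSubring Ω) : Subgroup (Ω ≃ₐ[F] Ω) :=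
  (W.inertiaSubgroup F).map (W.decompositionSubgroup F).subtype

/-- `F_U`, for a set `U` of valuation rings of `F`: the elements of `Ω` fixed by the inertia groups
of all valuation rings `W` of `Ω` with `W ∩ F ∈ U`.  If `Ω` is an algebraic closure of a field `F`
of characteristic zero, this is the maximal extension of `F` in `Ω` unramified over `U`. -/
noncomputable def unramified (U : Set (ValuationSubring F)) : IntermediateField F Ω :=
  ⨅ W : {W : ValuationSubring Ω // W.comap (algebraMap F Ω) ∈ U},
    IntermediateField.fixedField (inertia F Ω W.1)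

/-- `k̄ F`, the compositum of `F` and of the algebraic closure of `k` in `Ω`. -/
noncomputable def geomField : IntermediateField F Ω :=
  IntermediateField.adjoin F (algebraicClosure k Ω : Set Ω)

/-- The algebraic extension `L` of `K` in `Ω` is unramified at all valuation rings of `Ω` that
contain `k`: every nonzero element of `L` has the same valuation as an element of `K`.  (If `K` is
a function field of one variable over the algebraic closure of `k` and `k` has characteristic zero,
then this says that `L/K` is unramified over all points of the smooth projective curve.) -/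
def Unramified {k K Ω : Type} [Field k] [Field K] [Field Ω] [Algebra k Ω] [Algebra K Ω]
    (L : IntermediateField K Ω) : Prop :=
  ∀ W : ValuationSubring Ω, (∀ c : k, algebraMap k Ω c ∈ W) → ∀ z ∈ L, z ≠ 0 →
    ∃ t : K, t ≠ 0 ∧ z / algebraMap K Ω t ∈ W ∧ (z / algebraMap K Ω t)⁻¹ ∈ W

/-- `L/K` is a finite Galois extension whose degree is a power of `ℓ`. -/
def FiniteProEll (ℓ : ℕ) {K Ω : Type} [Field K] [Field Ω] [Algebra K Ω]
    (L : IntermediateField K Ω) : Prop :=
  FiniteDimensional K L ∧ IsGalois K L ∧ ∃ m : ℕ, Module.finrank K L = ℓ ^ m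

/-- The maximal unramified pro-`ℓ` extension of `K` in `Ω`: the compositum of the finite Galois
extensions of `K` whose degree is a power of `ℓ` and which are unramified. -/
noncomputable def maxProEll (ℓ : ℕ) (k K Ω : Type) [Field k] [Field K] [Field Ω] [Algebra k Ω]
    [Algebra K Ω] : IntermediateField K Ω :=
  ⨆ L : {L : IntermediateField K Ω // FiniteProEll ℓ L ∧ Unramified (k := k) L}, L.1

/-- `M`, the maximal unramified pro-`ℓ` extension of `k̄ F` in `Ω`, as an extension of `F`. -/
noncomputable def proEllField : IntermediateField F Ω :=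
  (maxProEll ℓ k (geomField k F Ω) Ω).restrictScalars F

/-- The map `τ : M → M` acts as `σ : K → K` on the elements that the fields `K` and `M` have in
common when they are regarded as subfields of `Ω` through `i` and `j`. -/
def ActsAs {K M Ω : Type} [Field K] [Field M] [Field Ω] (i : K →+* Ω) (j : M →+* Ω) (σ : K → K)
    (τ : M → M) : Prop :=
  ∀ c z, j z = i c → j (τ z) = i (σ c)

/-- Let `k ⊆ K ⊆ Ω` and `F ⊆ N ⊆ Ω` be fields.  A splitting of `Gal(N/F) → Gal(K/k)`: a continuous
homomorphism `s` from `Gal(K/k)` to `Gal(N/F)` such that `s(σ)` acts as `σ` on the elements of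
`K ∩ N`. -/
structure Splitting (K N : Type) [Field K] [Field N] [Algebra k K] [Algebra F N] [Algebra K Ω]
    [Algebra N Ω] where
  /-- the homomorphism `Gal(K/k) → Gal(N/F)` -/
  toHom : (K ≃ₐ[k] K) →* (N ≃ₐ[F] N)
  cont : Continuous toHom
  compat : ∀ σ : K ≃ₐ[k] K, ActsAs (algebraMap K Ω) (algebraMap N Ω) σ (toHom σ)

end definitions

section places

/-- The valuation ring `W` of `N` contains `k`, and the function `t ∈ F` is in its maximal ideal. -/
def ZeroAt (k : Type) {F N : Type} [Field k] [Field F] [Field N] [Algebra k F] [Algebra F N]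
    (W : ValuationSubring N) (t : F) : Prop :=
  (∀ c : k, algebraMap F N (algebraMap k F c) ∈ W) ∧ algebraMap F N t ∈ W.nonunits

/-- The function `t ∈ F` has a zero or a pole at the valuation ring `W` of `N` over `k`. -/
def ZeroOrPole (k : Type) {F N : Type} [Field k] [Field F] [Field N] [Algebra k F] [Algebra F N]
    (W : ValuationSubring N) (t : F) : Prop :=
  ZeroAt k W t ∨ ZeroAt k W t⁻¹

/-- The residue field of `W ∩ F` is `k`. -/
def RationalResidue (k F : Type) {N : Type} [Field k] [Field F] [Field N] [Algebra k F]
    [Algebra F N] (W : ValuationSubring N) : Prop :=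
  ∀ z : F, algebraMap F N z ∈ W → ∃ c : k, algebraMap F N (z - algebraMap k F c) ∈ W.nonunits

/-- The image of `s : Gal(K/k) → Gal(N/F)` in `Gal(M/F)`, where `M ⊆ N ⊆ Ω`, is contained in the
decomposition group of the valuation ring `W ∩ M`. -/
def InDecomposition {k F Ω K N : Type} [Field k] [Field F] [Field Ω] [Field K] [Field N]
    [Algebra k K] [Algebra F N] [Algebra F Ω] [Algebra K Ω] [Algebra N Ω]
    (s : Splitting k F Ω K N) (M : IntermediateField F Ω) (W : ValuationSubring N) : Prop :=
  ∀ σ, ∀ z : N, algebraMap N Ω z ∈ M → (s.toHom σ z ∈ W ↔ z ∈ W)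

/-- The splitting `s` of `Gal(N/F) → Gal(K/k)` induces on `M ⊆ N` the section of exactly one point,
and this is a rational point with `x = 0` or `x = ∞`: there is a valuation ring `W` of `N` above a
point with `x = 0` or `x = ∞`, with residue field `k`, such that the image of `s` in `Gal(M/F)` is
contained in the decomposition group of `W ∩ M`; and `W ∩ M` is the only such valuation ring above a
point with `x = 0` or `x = ∞` or above a zero of the function `h`. -/
def FromOnePoint {k F Ω K N : Type} [Field k] [Field F] [Field Ω] [Field K] [Field N]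
    [Algebra k F] [Algebra k K] [Algebra F N] [Algebra F Ω] [Algebra K Ω] [Algebra N Ω]
    (h x : F) (s : Splitting k F Ω K N) (M : IntermediateField F Ω) : Prop :=
  ∃ W : ValuationSubring N,
    ZeroOrPole k W x ∧ RationalResidue k F W ∧ InDecomposition s M W ∧
    ∀ W' : ValuationSubring N, ZeroOrPole k W' x ∨ ZeroAt k W' h → InDecomposition s M W' →
      ∀ z : N, algebraMap N Ω z ∈ M → (z ∈ W' ↔ z ∈ W)

end places

section curves

/-- `F = k(x, y)` is the function field of the curve `d y^ℓ = g(a x^m)`. -/
def IsFunctionField {k F : Type} [Field k] [Field F] [Algebra k F] (ℓ m : ℕ) (g : k[X]) (a d : k)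
    (x y : F) : Prop :=
  Transcendental k x ∧ algebraMap k F d * y ^ ℓ = aeval (algebraMap k F a * x ^ m) g ∧
    IntermediateField.adjoin k {x, y} = (⊤ : IntermediateField k F)

/-- Let `F = k(x, y)` be the function field of the curve `C : d y^ℓ = g(a x^m)`, let `Ω` be an
algebraic closure of `F` and `M = proEllField ℓ k F Ω`.  Then `M ⊆ F_U` for all sets `U` of valuation
rings of `F` over `k`, in particular for the set of all closed points of `C` and for its subsets.  For
all extensions `N ⊇ M` of `F` in `Ω`, for instance `N = M` or `N = F_U`, every section of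
`Gal(N/F) → G_k` induces on `M` the section of exactly one of the points with `x = 0`, `x = ∞` or
`g(a x^m) = 0`, and this is a rational point of `C` with `x = 0` or `x = ∞`. -/
def SectionsFromZeroOrInfinity (k : Type) [Field k] (ℓ m : ℕ) (g : k[X]) (a d : k) : Prop :=
  ∀ (F Ω : Type) [Field F] [Field Ω] [Algebra k F] [Algebra F Ω] [Algebra k Ω]
    [IsScalarTower k F Ω] [IsAlgClosure F Ω] (x y : F), IsFunctionField ℓ m g a d x y →
    (∀ U : Set (ValuationSubring F), (∀ O ∈ U, ∀ c : k, algebraMap k F c ∈ O) →
      proEllField ℓ k F Ω ≤ unramified F Ω U) ∧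
    ∀ N : IntermediateField F Ω, proEllField ℓ k F Ω ≤ N →
      ∀ s : Splitting k F Ω (algebraicClosure k Ω) N,
        FromOnePoint (aeval (algebraMap k F a * x ^ m) g) x s (proEllField ℓ k F Ω)

/-- `K = k(t)` is the field of rational functions in `t` over `k`. -/
def IsRationalFunctionField (k : Type) {K : Type} [Field k] [Field K] [Algebra k K] (t : K) : Prop :=
  Transcendental k t ∧ IntermediateField.adjoin k {t} = (⊤ : IntermediateField k K)

end curves

lemma iSup_congr_prop {α : Type} [CompleteLattice α] {P Q : α → Prop} (h : ∀ L, P L ↔ Q L) :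
    (⨆ L : {L // P L}, L.1) = ⨆ L : {L // Q L}, L.1 := by
  have h1 : P = Q := funext fun L => propext (h L)
  subst h1
  rfl

lemma proEll_eq (ℓ : ℕ) (k F Ω : Type) [Field k] [Field F] [Field Ω] [Algebra k F] [Algebra F Ω]
    [Algebra k Ω] : proEllField ℓ k F Ω = Pool.Agent.Y157.PS.geomPro ℓ k F Ω := by
  unfold proEllField Pool.Agent.Y157.PS.geomPro maxProEll Pool.Agent.Y157.PS.maxPro
  congr 1
  refine iSup_congr_prop fun L => ?_
  constructor
  · rintro ⟨⟨h1, h2, h3⟩, h4⟩
    refine ⟨⟨h1, h2, h3⟩, fun W hW z hz hz0 => ?_⟩
    obtain ⟨t, ht, h5, h6⟩ := h4 W hW z hz hz0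
    exact ⟨t, ht, div_ne_zero hz0 ((_root_.map_ne_zero _).2 ht), h5, h6⟩
  · rintro ⟨⟨h1, h2, h3⟩, h4⟩
    refine ⟨⟨h1, h2, h3⟩, fun W hW z hz hz0 => ?_⟩
    obtain ⟨t, ht, -, h5, h6⟩ := h4 W hW z hz hz0
    exact ⟨t, ht, h5, h6⟩

/-- Let `k` be a field of characteristic zero which is finitely generated over `ℚ`, `K = k(t)`, `ℓ` a
prime number, `m = ℓ^j` with `j ≥ 1`, `g ∈ k[x]` a polynomial such that `g(x^m)` is separable of degree at
least 3, `a₀, d₀ ∈ k` not zero, and `α, β` integers, `α` not divisible by `m`.  Then every section of the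
fundamental group of the curve `d₀ t^β y^ℓ = g(a₀ t^α x^m)` over `K`, of its open subcurves, and of the
geometrically pro-`ℓ` fundamental group of the curve, induces on the latter the section of exactly one
of the points with `x = 0`, `x = ∞` or `y = 0`, and this is a rational point with `x = 0` or `x = ∞`. -/
theorem result (k K : Type) [Field k] [CharZero k] (hk : (⊤ : IntermediateField ℚ k).FG)
    [Field K] [Algebra k K] (t : K) (ht : IsRationalFunctionField k t) (ℓ : ℕ) [Fact ℓ.Prime]
    (j : ℕ) (hj : 1 ≤ j) (g : k[X]) (hg : (expand k (ℓ ^ j) g).Separable)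
    (h3 : 3 ≤ (expand k (ℓ ^ j) g).natDegree) (a₀ d₀ : k) (ha₀ : a₀ ≠ 0) (hd₀ : d₀ ≠ 0)
    (α β : ℤ) (hα : ¬ ((ℓ ^ j : ℕ) : ℤ) ∣ α) :
    SectionsFromZeroOrInfinity K ℓ (ℓ ^ j) (g.map (algebraMap k K)) (algebraMap k K a₀ * t ^ α)
      (algebraMap k K d₀ * t ^ β) := by
  obtain ⟨ht1, htop⟩ := ht
  have hcK : CharZero K := charZero_of_injective_algebraMap (algebraMap k K).injective
  intro F Ω _ _ _ _ _ _ _ x y hxyF
  obtain ⟨hx, hxy, hF⟩ := hxyF
  have hcl : IsAlgClosed Ω := IsAlgClosure.isAlgClosed F
  have halg : Algebra.IsAlgebraic F Ω := IsAlgClosure.isAlgebraic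
  have ht0 : t ≠ 0 := by
    rintro rfl
    exact ht1 isAlgebraic_zero
  have hd : algebraMap k K d₀ * t ^ β ≠ 0 :=
    mul_ne_zero ((_root_.map_ne_zero _).2 hd₀) (zpow_ne_zero _ ht0)
  have hFx := Pool.Agent.R925.L.alg_eqn (Fact.out : ℓ.Prime).pos (g.map (algebraMap k K)) _ _ hd
    x y hxy hF
  rw [proEll_eq]
  refine ⟨fun U hU => ?_, fun N hN s => ?_⟩
  · exact (Pool.Agent.Y157.PS.a_ind ℓ K F Ω x hx hFx U hU).1
  · obtain ⟨W, ⟨⟨h1, h2, h3'⟩, h4⟩, hun⟩ :=
      Pool.Agent.R925.L.genRM hj hk t ht1 htop g hg h3 a₀ d₀ ha₀ hd₀ α β hα _ _ rfl rfl x y hx hxy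
        hF N hN s.toHom s.cont (fun σ c z hz => s.compat σ c z hz)
    refine ⟨W, h2.imp (fun h => ⟨h1, h⟩) (fun h => ⟨h1, h⟩), h3', h4, fun W' b1 b2 => ?_⟩
    rcases b1 with (b1 | b1) | b1
    · exact hun W' b1.1 (Or.inl b1.2) b2
    · exact hun W' b1.1 (Or.inr (Or.inl b1.2)) b2
    · exact hun W' b1.1 (Or.inr (Or.inr b1.2)) b2

end Pool.Agent.Results.MP_e66f84_ag.GenericTwistsByRotations
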