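import Pool.Agent.R925.X.Fin

/-!
# Sections fixed by automorphisms which move the coordinate of a cyclic cover

Let `k` be a field finitely generated over `ℚ`, `ℓ` a prime number, `j ≥ 1` and `m = ℓ^j`, `g ∈ k[x]` a
polynomial such that `f(x) = g(x^m)` is separable of degree at least 3, and `d ∈ k` not zero.  Let `C`
be the smooth projective curve `d y^ℓ = g(x^m)` over `k`, of genus `(ℓ - 1)(deg f - 2)/2`, and let
`F = k(x, y)` be its function field.
The group of the automorphisms `(x, y) ↦ (ζ x, ξ y)` of `C_k̄`, where `ζ^m = 1` and `ξ^ℓ = 1`, is the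
Galois group of `k̄(x, y)` over `k̄(x^m)`.

Let `M` be the maximal pro-`ℓ` extension of `k̄ F` that is unramified over `C`, so that `Gal(M/F)` is
the geometrically pro-`ℓ` fundamental group of `C`, the quotient of `π₁(C)` by the kernel of
`π₁(C_k̄) → π₁(C_k̄)^(pro-ℓ)`.  The group `Gal(M/k̄(x^m))` is an extension of the group of all
automorphisms `(x, y) ↦ (ζ x, ξ y)` by `π₁(C_k̄)^(pro-ℓ)`.

**Theorem.**  For every section `s` of `Gal(M/F) → G_k` the following are equivalent.

* `s` is the section of a rational point `P` of `C` with `x(P) = 0` or `x(P) = ∞`: its image is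
  contained in the decomposition group of a prolongation `W` of the valuation of `P`.
* Some element `γ` of `Gal(M/k̄(x^m))` with `γ(x) ≠ x` commutes with `s(H)` for some subgroup `H` of
  finite index of `G_k`.
* For some subgroup `H` of finite index of `G_k` the group `s(H)` is contained in the decomposition
  group of a prolongation of the valuation of a point of `C_k̄` with `x = 0` or `x = ∞`.

Then `W` is unique, also among the valuations above the branch points of `C` over the `x`-line, and
for every `m`-th root of unity `ζ` there is exactly one `γ` in `Gal(M/k̄(x^m))` with `γ(x) = ζ x` that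
commutes with `s(H)` for some subgroup `H` of finite index.

In other words, let `τ` be an automorphism `(x, y) ↦ (ζ x, ξ y)` of `C`, with `ζ ≠ 1`, say with
`ζ, ξ ∈ k`.  A section `s` whose conjugacy class is fixed by `τ`, or whose restriction to an open
subgroup of `G_k` has this property, is the section of a rational fixed point of `τ`: the
automorphism of `Gal(M/F)` given by `τ` is the conjugation by an element of `Gal(M/k̄(x^m))` over `τ`,
so that the class of `s` is fixed by `τ` if and only if some `γ` over `τ` commutes with the image of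
`s`.  The points with `x = 0` are given by `y^ℓ = g(0)/d`, and those with `x = ∞` by `z^ℓ = a/d`, where
`z = y x^(-deg f/ℓ)` and `a` is the leading coefficient of `g`.  So if neither `g(0)/d` nor `a/d` is an
`ℓ`-th power in `k`, then no section of the geometrically pro-`ℓ` fundamental group of `C` is fixed by
`τ`, not even over a finite extension of `k`, although all sections of the points with `x = 0` or
`x = ∞` over extensions of `k` are fixed by a suitable `τ`.  For `ℓ = 2` and `j = 1` the curves are the
hyperelliptic curves `d y² = g(x²)` with their involutions `(x, y) ↦ (-x, ±y)`.  (The automorphisms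
`(x, y) ↦ (x, ξ y)` are the subject of the theorem `SectionsWithSymmetries`, for the curves
`d y^ℓ = f(x)`; the points which occur there are the branch points.)

The theorem is stated for an arbitrary extension `N ⊇ M` of `F` in an algebraic closure `Ω` instead of
`M`, and for the section of `Gal(M/F)` induced by a section of `Gal(N/F)`: this includes `N = M` and
the fields `N = F_U` with `Gal(F_U/F) = π₁(U)`, where `U` is an open subcurve of `C`, in particular
`U = C`.

The fundamental group is described through valuations.  Let `F_U` be the maximal extension of `F`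
inside `Ω` which is unramified over the closed points of `U`, that is, over their local rings, which
are valuation rings of `F`.  Then `π₁(U) = Gal(F_U/F)`, and the map `π₁(U) → G_k` is the restriction
of automorphisms to the algebraic closure of `k` in `Ω`.

Proof.  Let `Z` be the group of all elements of `Gal(M/k̄(x^m))` which commute with `s(H)` for some
subgroup `H` of finite index.  (1) An element of `Z` which fixes `x` and `y` is trivial: it commutes
with a lift of a power of a Frobenius element at a place of good reduction, and this case is part of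
the proof of `SectionsWithSymmetries`.  So `Z` embeds into the group of the automorphisms
`(x, y) ↦ (ζ x, ξ y)`; it is a finite abelian `ℓ`-group.  (2) An automorphism `γ` of order `ℓ` of `M` over
`k̄` which maps `k̄(x)` to itself fixes exactly one valuation ring of `M` over `k̄`.  Existence: if `γ`
fixes no place of a finite level `L`, then there is a function `G` in `L` with a divisor divisible by
`ℓ` and `γ(G) = ζ G`, `ζ ≠ 1`; its `ℓ`-th root in `M` shows that `γ` does not have the order `ℓ`.  The
fixed places of all levels lie above a finite set of points of the line, so they have a limit.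
Uniqueness: if `γ` fixes `W ≠ W'`, then on a suitable level it fixes the places `w ≠ w'` below them and
a third place `w''`, because it commutes with a nontrivial element of the Galois group of a larger
level over a smaller one.  Take a function `z` on this level with the divisor `w - w''` modulo `ℓ`;
then `γ(z)/z` is an `ℓ`-th power in `M`, and Hilbert's Theorem 90 gives `t` in `M` such that
`T = z t^ℓ` is an eigenvector of `γ`.  The order of `T` at `W'` is divisible by `ℓ`, hence the
eigenvalue is 1, and so the order of `T` at `W` is divisible by `ℓ` as well, a contradiction.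
(3) If `Z ≠ 1`, then the elements of order `ℓ` of the abelian group `Z` fix the same valuation ring `W`,
and so do all elements of `Z` and, as it normalises `Z`, the group `s(G_k)`.  If `γ ∈ Z` and
`γ(x) = ζ x ≠ x`, then `x` is not a unit at `W`.  (4) Conversely, let `s(H)` stabilise a valuation ring
`W` where `x` has a zero or a pole.  There is an embedding of `M` into `M` over `k̄` with `x ↦ ζ x`,
because the right side has the same divisibility properties; it is an automorphism, because its
`m`-th power fixes `x`; and after the multiplication by an element of `Gal(M/k̄(x))` it maps `W` to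
itself.  It is then determined by `ζ`, because `x` or `1/x` is a uniformiser at `W`; so it commutes
with `s(σ)` for all `σ ∈ H` which fix `ζ`.
-/

open Polynomial

namespace Pool.Agent.Results.MP_e66f84_ag.SectionsFixedByRotations

section definitions

variable (ℓ : ℕ) (k F Ω : Type) [Field k] [Field F] [Field Ω] [Algebra k F] [Algebra F Ω]
  [Algebra k Ω]

/-- The inertia group of the valuation ring `W` of `Ω`, as a subgroup of `Gal(Ω/F)`: the
automorphisms of `Ω` over `F` that map `W` onto itself and act as the identity on its residue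
field. -/
noncomputable def inertia (W : ValuationSubring Ω) : Subgroup (Ω ≃ₐ[F] Ω) :=
  (W.inertiaSubgroup F).map (W.decompositionSubgroup F).subtype

/-- `F_U`, for a set `U` of valuation rings of `F`: the elements of `Ω` fixed by the inertia groups
of all valuation rings `W` of `Ω` with `W ∩ F ∈ U`.  If `Ω` is an algebraic closure of a field `F`
of characteristic zero, this is the maximal extension of `F` in `Ω` unramified over `U`. -/
noncomputable def unramified (U : Set (ValuationSubring F)) : IntermediateField F Ω :=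
  ⨅ W : {W : ValuationSubring Ω // W.comap (algebraMap F Ω) ∈ U},
    IntermediateField.fixedField (inertia F Ω W.1)

/-- `k̄ F`, the compositum of `F` and of the algebraic closure of `k` in `Ω`. -/
noncomputable def geomField : IntermediateField F Ω :=
  IntermediateField.adjoin F (algebraicClosure k Ω : Set Ω)

/-- The algebraic extension `L` of `K` in `Ω` is unramified at all valuation rings of `Ω` that
contain `k`: every nonzero element of `L` has the same valuation as an element of `K`.  (If `K` is
a function field of one variable over the algebraic closure of `k` and `k` has characteristic zero,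
then this says that `L/K` is unramified over all points of the smooth projective curve.) -/
def Unramified {k K Ω : Type} [Field k] [Field K] [Field Ω] [Algebra k Ω] [Algebra K Ω]
    (L : IntermediateField K Ω) : Prop :=
  ∀ W : ValuationSubring Ω, (∀ c : k, algebraMap k Ω c ∈ W) → ∀ z ∈ L, z ≠ 0 →
    ∃ t : K, t ≠ 0 ∧ z / algebraMap K Ω t ∈ W ∧ (z / algebraMap K Ω t)⁻¹ ∈ W

/-- `L/K` is a finite Galois extension whose degree is a power of `ℓ`. -/
def FiniteProEll (ℓ : ℕ) {K Ω : Type} [Field K] [Field Ω] [Algebra K Ω]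
    (L : IntermediateField K Ω) : Prop :=
  FiniteDimensional K L ∧ IsGalois K L ∧ ∃ m : ℕ, Module.finrank K L = ℓ ^ m

/-- The maximal unramified pro-`ℓ` extension of `K` in `Ω`: the compositum of the finite Galois
extensions of `K` whose degree is a power of `ℓ` and which are unramified. -/
noncomputable def maxProEll (ℓ : ℕ) (k K Ω : Type) [Field k] [Field K] [Field Ω] [Algebra k Ω]
    [Algebra K Ω] : IntermediateField K Ω :=
  ⨆ L : {L : IntermediateField K Ω // FiniteProEll ℓ L ∧ Unramified (k := k) L}, L.1

/-- `M`, the maximal unramified pro-`ℓ` extension of `k̄ F` in `Ω`, as an extension of `F`. -/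
noncomputable def proEllField : IntermediateField F Ω :=
  (maxProEll ℓ k (geomField k F Ω) Ω).restrictScalars F

/-- The map `τ : M → M` acts as `σ : K → K` on the elements that the fields `K` and `M` have in
common when they are regarded as subfields of `Ω` through `i` and `j`. -/
def ActsAs {K M Ω : Type} [Field K] [Field M] [Field Ω] (i : K →+* Ω) (j : M →+* Ω) (σ : K → K)
    (τ : M → M) : Prop :=
  ∀ c z, j z = i c → j (τ z) = i (σ c)

/-- Let `k ⊆ K ⊆ Ω` and `F ⊆ N ⊆ Ω` be fields.  A splitting of `Gal(N/F) → Gal(K/k)`: a continuous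
homomorphism `s` from `Gal(K/k)` to `Gal(N/F)` such that `s(σ)` acts as `σ` on the elements of
`K ∩ N`. -/
structure Splitting (K N : Type) [Field K] [Field N] [Algebra k K] [Algebra F N] [Algebra K Ω]
    [Algebra N Ω] where
  /-- the homomorphism `Gal(K/k) → Gal(N/F)` -/
  toHom : (K ≃ₐ[k] K) →* (N ≃ₐ[F] N)
  cont : Continuous toHom
  compat : ∀ σ : K ≃ₐ[k] K, ActsAs (algebraMap K Ω) (algebraMap N Ω) σ (toHom σ)

end definitions

section places

/-- The valuation ring `W` of `N` contains `k`, and the function `t ∈ F` is in its maximal ideal. -/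
def ZeroAt (k : Type) {F N : Type} [Field k] [Field F] [Field N] [Algebra k F] [Algebra F N]
    (W : ValuationSubring N) (t : F) : Prop :=
  (∀ c : k, algebraMap F N (algebraMap k F c) ∈ W) ∧ algebraMap F N t ∈ W.nonunits

/-- The valuation ring `W` of `N` contains `k`, and the function `t ∈ F` has a zero or a pole there:
`t` or `1/t` is in the maximal ideal of `W`. -/
def ZeroOrPole (k : Type) {F N : Type} [Field k] [Field F] [Field N] [Algebra k F] [Algebra F N]
    (W : ValuationSubring N) (t : F) : Prop :=
  ZeroAt k W t ∨ ZeroAt k W t⁻¹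

/-- The residue field of `W ∩ F` is `k`. -/
def RationalResidue (k F : Type) {N : Type} [Field k] [Field F] [Field N] [Algebra k F]
    [Algebra F N] (W : ValuationSubring N) : Prop :=
  ∀ z : F, algebraMap F N z ∈ W → ∃ c : k, algebraMap F N (z - algebraMap k F c) ∈ W.nonunits

variable {k F Ω K N : Type} [Field k] [Field F] [Field Ω] [Field K] [Field N]
    [Algebra k F] [Algebra k K] [Algebra F N] [Algebra F Ω] [Algebra K Ω] [Algebra N Ω]

/-- The image of the subgroup `H` of `Gal(K/k)` under `s : Gal(K/k) → Gal(N/F)` and the restriction to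
`M`, where `M ⊆ N ⊆ Ω`, is contained in the decomposition group of the valuation ring `W ∩ M`. -/
def InDecomposition (s : Splitting k F Ω K N) (H : Subgroup (K ≃ₐ[k] K))
    (M : IntermediateField F Ω) (W : ValuationSubring N) : Prop :=
  ∀ σ ∈ H, ∀ z : N, algebraMap N Ω z ∈ M → (s.toHom σ z ∈ W ↔ z ∈ W)

/-- The splitting `s` of `Gal(N/F) → Gal(K/k)` induces on `M ⊆ N` the section of a rational point with
`x = 0` or `x = ∞`, and of no other point with `x = 0`, `x = ∞` or `f(x) = 0`: there is a valuation
ring `W` of `N`, where `x` has a zero or a pole, with `W ∩ F` of residue field `k`, such that the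
image of `s` in `Gal(M/F)` is contained in the decomposition group of `W ∩ M`; and `W ∩ M` is the
only such valuation ring among those where `x` has a zero or a pole or `f(x)` has a zero. -/
def FromOnePoint (f : k[X]) (x : F) (s : Splitting k F Ω K N) (M : IntermediateField F Ω) :
    Prop :=
  ∃ W : ValuationSubring N, ZeroOrPole k W x ∧ RationalResidue k F W ∧ InDecomposition s ⊤ M W ∧
    ∀ W' : ValuationSubring N, ZeroOrPole k W' x ∨ ZeroAt k W' (aeval x f) →
      InDecomposition s ⊤ M W' → ∀ z : N, algebraMap N Ω z ∈ M → (z ∈ W' ↔ z ∈ W)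

/-- For some subgroup `H` of finite index of `Gal(K/k)` the image of `H` under `s` in `Gal(M/F)` is
contained in the decomposition group of a valuation ring where `x` has a zero or a pole. -/
def FromPointOverFiniteIndex (x : F) (s : Splitting k F Ω K N) (M : IntermediateField F Ω) :
    Prop :=
  ∃ H : Subgroup (K ≃ₐ[k] K), H.FiniteIndex ∧
    ∃ W : ValuationSubring N, ZeroOrPole k W x ∧ InDecomposition s H M W

/-- The automorphism `γ` of `M` commutes with the automorphism of `M` given by the map `τ : N → N`: if
`τ` maps `z ∈ M` to `w ∈ M`, then it maps `γ(z)` to `γ(w)`. -/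
def CommutesWith (M : IntermediateField F Ω) (γ : M ≃+* M) (τ : N → N) : Prop :=
  ∀ (z w : M) (a b : N), algebraMap N Ω a = z → algebraMap N Ω b = γ z →
    algebraMap N Ω (τ a) = w → algebraMap N Ω (τ b) = γ w

/-- `γ` is an element of `Gal(M/k̄(x^m))` which commutes with the image of `H` under `s`: it is an
automorphism of the field `M` which fixes `x^m` and the elements of `M` that are algebraic over `k`,
and it commutes with the action of `s(σ)` on `M` for all `σ ∈ H`. -/
structure IsSymmetry [Algebra k Ω] (m : ℕ) (x : F) (s : Splitting k F Ω K N)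
    (H : Subgroup (K ≃ₐ[k] K)) (M : IntermediateField F Ω) (γ : M ≃+* M) : Prop where
  const : ∀ z : M, IsAlgebraic k (z : Ω) → γ z = z
  base : γ (algebraMap F M (x ^ m)) = algebraMap F M (x ^ m)
  comm : ∀ σ ∈ H, CommutesWith M γ (s.toHom σ)

/-- For some subgroup `H` of finite index of `Gal(K/k)` some element `γ` of `Gal(M/k̄(x^m))` with
`γ(x) ≠ x` commutes with the image of `H` under `s`. -/
def HasMovingSymmetry [Algebra k Ω] (m : ℕ) (x : F) (s : Splitting k F Ω K N)
    (M : IntermediateField F Ω) : Prop :=
  ∃ H : Subgroup (K ≃ₐ[k] K), H.FiniteIndex ∧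
    ∃ γ : M ≃+* M, IsSymmetry m x s H M γ ∧ γ (algebraMap F M x) ≠ algebraMap F M x

/-- For every `m`-th root of unity `ζ` in `M` exactly one `γ` in `Gal(M/k̄(x^m))` with `γ(x) = ζ x`
commutes with the image under `s` of some subgroup of finite index of `Gal(K/k)`. -/
def OneSymmetryForEachRotation [Algebra k Ω] (m : ℕ) (x : F) (s : Splitting k F Ω K N)
    (M : IntermediateField F Ω) : Prop :=
  ∀ ζ : M, ζ ^ m = 1 → ∃! γ : M ≃+* M, γ (algebraMap F M x) = ζ * algebraMap F M x ∧
    ∃ H : Subgroup (K ≃ₐ[k] K), H.FiniteIndex ∧ IsSymmetry m x s H M γ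

end places

section curves

/-- `F = k(x, y)` is the function field of the curve `d y^ℓ = f(x)`. -/
def IsFunctionField {k F : Type} [Field k] [Field F] [Algebra k F] (ℓ : ℕ) (f : k[X]) (d : k)
    (x y : F) : Prop :=
  Transcendental k x ∧ algebraMap k F d * y ^ ℓ = aeval x f ∧
    IntermediateField.adjoin k {x, y} = (⊤ : IntermediateField k F)

/-- Let `F = k(x, y)` be the function field of the curve `C : d y^ℓ = g(x^m)`, where `m = ℓ^j`, let `Ω`
be an algebraic closure of `F` and `M = proEllField ℓ k F Ω`.  Then `M ⊆ F_U` for all sets `U` of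
valuation rings of `F` over `k`.  Let `N ⊇ M` be an extension of `F` in `Ω`, for instance `N = M` or
`N = F_U`, and let `s` be a section of `Gal(N/F) → G_k`.  Then `s` induces on `M` the section of a
rational point with `x = 0` or `x = ∞`, and of no other point with `x = 0`, `x = ∞` or `g(x^m) = 0`,
if and only if some `γ` in `Gal(M/k̄(x^m))` with `γ(x) ≠ x` commutes with the image of `H` under `s`
for some subgroup `H` of finite index of `G_k`, and if and only if the image of some subgroup `H` of
finite index of `G_k` in `Gal(M/F)` is contained in the decomposition group of a valuation ring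
where `x` has a zero or a pole.  In this case there is, for every `m`-th root of unity `ζ`, exactly one
such `γ` with `γ(x) = ζ x`. -/
def SymmetriesOfSections (k : Type) [Field k] (ℓ j : ℕ) (g : k[X]) (d : k) : Prop :=
  ∀ (F Ω : Type) [Field F] [Field Ω] [Algebra k F] [Algebra F Ω] [Algebra k Ω]
    [IsScalarTower k F Ω] [IsAlgClosure F Ω] (x y : F),
    IsFunctionField ℓ (expand k (ℓ ^ j) g) d x y →
    (∀ U : Set (ValuationSubring F), (∀ O ∈ U, ∀ c : k, algebraMap k F c ∈ O) →
      proEllField ℓ k F Ω ≤ unramified F Ω U) ∧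
    ∀ N : IntermediateField F Ω, proEllField ℓ k F Ω ≤ N →
      ∀ s : Splitting k F Ω (algebraicClosure k Ω) N,
        (FromOnePoint (expand k (ℓ ^ j) g) x s (proEllField ℓ k F Ω) ↔
          HasMovingSymmetry (ℓ ^ j) x s (proEllField ℓ k F Ω)) ∧
        (FromOnePoint (expand k (ℓ ^ j) g) x s (proEllField ℓ k F Ω) ↔
          FromPointOverFiniteIndex x s (proEllField ℓ k F Ω)) ∧
        (FromOnePoint (expand k (ℓ ^ j) g) x s (proEllField ℓ k F Ω) →
          OneSymmetryForEachRotation (ℓ ^ j) x s (proEllField ℓ k F Ω))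

end curves

lemma iSup_congr_prop {α : Type} [CompleteLattice α] {P Q : α → Prop} (h : ∀ L, P L ↔ Q L) :
    (⨆ L : {L // P L}, L.1) = ⨆ L : {L // Q L}, L.1 := by
  have h1 : P = Q := funext fun L => propext (h L)
  subst h1
  rfl

lemma proEll_eq (ℓ : ℕ) (k F Ω : Type) [Field k] [Field F] [Field Ω] [Algebra k F] [Algebra F Ω]
    [Algebra k Ω] : proEllField ℓ k F Ω = Pool.Agent.Y157.PS.geomPro ℓ k F Ω := by
  unfold proEllField Pool.Agent.Y157.PS.geomPro maxProEll Pool.Agent.Y157.PS.maxPro
  congr 1
  refine iSup_congr_prop fun L => ?_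
  constructor
  · rintro ⟨⟨h1, h2, h3⟩, h4⟩
    refine ⟨⟨h1, h2, h3⟩, fun W hW z hz hz0 => ?_⟩
    obtain ⟨t, ht, h5, h6⟩ := h4 W hW z hz hz0
    exact ⟨t, ht, div_ne_zero hz0 ((_root_.map_ne_zero _).2 ht), h5, h6⟩
  · rintro ⟨⟨h1, h2, h3⟩, h4⟩
    refine ⟨⟨h1, h2, h3⟩, fun W hW z hz hz0 => ?_⟩
    obtain ⟨t, ht, -, h5, h6⟩ := h4 W hW z hz hz0
    exact ⟨t, ht, h5, h6⟩

theorem core (k : Type) [Field k] [CharZero k] (ℓ : ℕ) [Fact ℓ.Prime] (j : ℕ) (hj : 1 ≤ j)
    (g : k[X]) (hf : (expand k (ℓ ^ j) g).Separable) (h3 : 3 ≤ (expand k (ℓ ^ j) g).natDegree)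
    (d : k) (hd : d ≠ 0)
    (hRR : ∀ (κ : Type) [Field κ] [Algebra k κ] [IsAlgClosure k κ],
      Pool.Agent.R925.Q.RR ℓ k κ (expand k (ℓ ^ j) g)) :
    SymmetriesOfSections k ℓ j g d := by
  intro F Ω _ _ _ _ _ _ _ x y hxyF
  obtain ⟨hx, hxy, hF⟩ := hxyF
  have hcl : IsAlgClosed Ω := IsAlgClosure.isAlgClosed F
  have halg : Algebra.IsAlgebraic F Ω := IsAlgClosure.isAlgebraic
  have hFx := Pool.Agent.Y157.PS.alg_of_eqn (Fact.out : ℓ.Prime).pos _ _ hd x y hxy hF
  rw [proEll_eq]
  refine ⟨fun U hU => ?_, fun N hN s => ?_⟩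
  · exact (Pool.Agent.Y157.PS.a_ind ℓ k F Ω x hx hFx U hU).1
  · have hac : IsAlgClosure k (algebraicClosure k Ω) := inferInstance
    obtain ⟨m1, m2, m3⟩ := Pool.Agent.R925.X.finX hj g hf h3 (hRR _) d hd x y hx hxy hF N hN
      s.toHom s.cont (fun σ c z hz => s.compat σ c z hz)
    have hsym : ∀ H γ, IsSymmetry (ℓ ^ j) x s H (Pool.Agent.Y157.PS.geomPro ℓ k F Ω) γ →
        Pool.Agent.R925.X.Sy2 k (ℓ ^ j) x (Pool.Agent.Y157.PS.geomPro ℓ k F Ω) N s.toHom H γ :=
      fun H γ h => ⟨h.1, h.2, h.3⟩
    have hsym' : ∀ H γ,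
        Pool.Agent.R925.X.Sy2 k (ℓ ^ j) x (Pool.Agent.Y157.PS.geomPro ℓ k F Ω) N s.toHom H γ →
        IsSymmetry (ℓ ^ j) x s H (Pool.Agent.Y157.PS.geomPro ℓ k F Ω) γ :=
      fun H γ h => ⟨h.1, h.2.1, h.2.2⟩
    have g1 : HasMovingSymmetry (ℓ ^ j) x s (Pool.Agent.Y157.PS.geomPro ℓ k F Ω) →
        FromOnePoint (expand k (ℓ ^ j) g) x s (Pool.Agent.Y157.PS.geomPro ℓ k F Ω) := by
      rintro ⟨H, hH, γ, hγ, hγx⟩
      obtain ⟨W, ⟨⟨a1, a2, a3⟩, a4⟩, a5⟩ := m1 H hH.index_ne_zero γ hγx (hsym H γ hγ)
      refine ⟨W, ?_, a3, fun σ _ => a4 σ, fun W' b1 b2 => ?_⟩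
      · rcases a2 with a2 | a2
        · exact Or.inl ⟨a1, a2⟩
        · exact Or.inr ⟨a1, a2⟩
      · have b3 : (∀ c : k, algebraMap F N (algebraMap k F c) ∈ W') ∧
            (algebraMap F N x ∈ W'.nonunits ∨ algebraMap F N x⁻¹ ∈ W'.nonunits ∨
              algebraMap F N (aeval x (expand k (ℓ ^ j) g)) ∈ W'.nonunits) := by
          rcases b1 with (b1 | b1) | b1
          · exact ⟨b1.1, Or.inl b1.2⟩
          · exact ⟨b1.1, Or.inr (Or.inl b1.2)⟩
          · exact ⟨b1.1, Or.inr (Or.inr b1.2)⟩
        exact a5 W' b3.1 b3.2 fun σ => b2 σ trivial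
    have g2 : FromOnePoint (expand k (ℓ ^ j) g) x s (Pool.Agent.Y157.PS.geomPro ℓ k F Ω) →
        FromPointOverFiniteIndex x s (Pool.Agent.Y157.PS.geomPro ℓ k F Ω) := by
      rintro ⟨W, a1, -, a4, -⟩
      exact ⟨⊤, inferInstance, W, a1, a4⟩
    have g3 : FromPointOverFiniteIndex x s (Pool.Agent.Y157.PS.geomPro ℓ k F Ω) →
        ∀ ζ : Pool.Agent.Y157.PS.geomPro ℓ k F Ω, ζ ^ (ℓ ^ j) = 1 →
          ∃ γ : Pool.Agent.Y157.PS.geomPro ℓ k F Ω ≃+* Pool.Agent.Y157.PS.geomPro ℓ k F Ω,
          γ (algebraMap F _ x) = ζ * algebraMap F _ x ∧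
          ∃ H : Subgroup (algebraicClosure k Ω ≃ₐ[k] algebraicClosure k Ω), H.FiniteIndex ∧
            IsSymmetry (ℓ ^ j) x s H (Pool.Agent.Y157.PS.geomPro ℓ k F Ω) γ := by
      rintro ⟨H, hH, W, hW, hd⟩ ζ hζ
      have hW' : (∀ c : k, algebraMap F N (algebraMap k F c) ∈ W) ∧
          (algebraMap F N x ∈ W.nonunits ∨ algebraMap F N x⁻¹ ∈ W.nonunits) := by
        rcases hW with hW | hW
        · exact ⟨hW.1, Or.inl hW.2⟩
        · exact ⟨hW.1, Or.inr hW.2⟩
      obtain ⟨γ, hγx, H', hH', hγ⟩ := m2 H hH.index_ne_zero W hW'.1 hW'.2 hd ζ hζ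
      exact ⟨γ, hγx, H', ⟨hH'⟩, hsym' H' γ hγ⟩
    -- a nontrivial root of unity
    have hm0 : 0 < ℓ ^ j := pow_pos (Fact.out : ℓ.Prime).pos j
    have hm2 : 1 < ℓ ^ j := Nat.one_lt_pow (by omega) (Fact.out : ℓ.Prime).one_lt
    have hkb : IsAlgClosed (algebraicClosure k Ω) := hac.1
    have hch : CharZero (algebraicClosure k Ω) :=
      charZero_of_injective_algebraMap (algebraMap k (algebraicClosure k Ω)).injective
    obtain ⟨ζ₀, hζ₀, hζ₀1⟩ : ∃ ζ : Pool.Agent.Y157.PS.geomPro ℓ k F Ω, ζ ^ (ℓ ^ j) = 1 ∧ ζ ≠ 1 := by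
      have : NeZero (ℓ ^ j) := ⟨hm0.ne'⟩
      obtain ⟨ζ, hζ⟩ := HasEnoughRootsOfUnity.exists_primitiveRoot (algebraicClosure k Ω) (ℓ ^ j)
      refine ⟨Pool.Agent.R925.Q.cst ℓ k F Ω ζ, ?_, fun h => ?_⟩
      · apply Subtype.ext
        exact congrArg (fun z : algebraicClosure k Ω => (z : Ω)) hζ.pow_eq_one
      · apply hζ.ne_one hm2
        apply Subtype.ext
        exact congrArg (fun z : Pool.Agent.Y157.PS.geomPro ℓ k F Ω => (z : Ω)) h
    have hx0 : algebraMap F (Pool.Agent.Y157.PS.geomPro ℓ k F Ω) x ≠ 0 := by
      refine (_root_.map_ne_zero _).2 ?_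
      rintro rfl
      exact hx isAlgebraic_zero
    have g4 : FromPointOverFiniteIndex x s (Pool.Agent.Y157.PS.geomPro ℓ k F Ω) →
        HasMovingSymmetry (ℓ ^ j) x s (Pool.Agent.Y157.PS.geomPro ℓ k F Ω) := by
      intro h
      obtain ⟨γ, hγx, H, hH, hγ⟩ := g3 h ζ₀ hζ₀
      refine ⟨H, hH, γ, hγ, fun h1 => ?_⟩
      rw [h1] at hγx
      exact hζ₀1 ((mul_eq_right₀ hx0).1 hγx.symm)
    refine ⟨⟨fun h => g4 (g2 h), g1⟩, ⟨g2, fun h => g1 (g4 h)⟩, fun h ζ hζ => ?_⟩
    obtain ⟨γ, hγx, H, hH, hγ⟩ := g3 (g2 h) ζ hζ
    obtain ⟨H'', hH'', γ'', hγ'', hγx''⟩ := g4 (g2 h)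
    refine ⟨γ, ⟨hγx, H, hH, hγ⟩, ?_⟩
    rintro γ' ⟨hγx', H', hH', hγ'⟩
    exact m3 H' H H'' hH'.index_ne_zero hH.index_ne_zero hH''.index_ne_zero γ' γ γ'' hγx''
      (hsym _ _ hγ') (hsym _ _ hγ) (hsym _ _ hγ'') (by rw [hγx, hγx'])

/-- Let `k` be a field finitely generated over `ℚ`, `ℓ` a prime number, `m = ℓ^j` with `j ≥ 1`,
`g ∈ k[x]` such that `g(x^m)` is separable of degree at least 3, `d ∈ k` not zero, and `C` the curve
`d y^ℓ = g(x^m)`.
A section of the geometrically pro-`ℓ` fundamental group of `C` commutes, over some subgroup of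
finite index, with an automorphism of `M` over `k̄(x^m)` which moves `x`, if and only if it is the
section of a rational point with `x = 0` or `x = ∞`, if and only if it belongs to such a point over
some subgroup of finite index; in this case there is exactly one such automorphism over each
rotation `x ↦ ζ x`, `ζ^m = 1`.  This holds also for sections induced from larger quotients of the
Galois group of the function field, such as the fundamental groups of `C` and of its open
subcurves. -/
theorem result (k : Type) [Field k] [CharZero k] (hk : (⊤ : IntermediateField ℚ k).FG) (ℓ : ℕ)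
    [Fact ℓ.Prime] (j : ℕ) (hj : 1 ≤ j) (g : k[X]) (hf : (expand k (ℓ ^ j) g).Separable)
    (h3 : 3 ≤ (expand k (ℓ ^ j) g).natDegree) (d : k) (hd : d ≠ 0) :
    SymmetriesOfSections k ℓ j g d :=
  core k ℓ j hj g hf h3 d hd fun _ _ _ _ => Pool.Agent.R925.Q.rr_fg hk _ hf.ne_zero

end Pool.Agent.Results.MP_e66f84_ag.SectionsFixedByRotations
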